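import Mathlib

/-!
Normal forms along a rank function on a group, built from left transversals.
-/

set_option autoImplicit false

namespace Pool.Agent.P.MP_08cc25_al

open Cardinal Ordinal

/-- An ultrametric rank function on a group with ordinal values. -/
structure Rank (G : Type) [Group G] where
  rk : G → Ordinal.{0}
  rk_eq_zero : ∀ x, rk x = 0 ↔ x = 1
  rk_mul : ∀ x y, rk (x * y) ≤ max (rk x) (rk y)
  rk_inv : ∀ x, rk x⁻¹ = rk x

variable {G : Type} [Group G] (R : Rank G)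

/-- The subgroup of elements of rank below `o`, together with the identity. -/
def Rank.B (o : Ordinal.{0}) : Subgroup G where
  carrier := {x | x = 1 ∨ R.rk x < o}
  one_mem' := Or.inl rfl
  mul_mem' := by
    rintro a b (rfl | ha) hb
    · simpa using hb
    · rcases hb with rfl | hb
      · right; simpa using ha
      · right; exact lt_of_le_of_lt (R.rk_mul a b) (max_lt ha hb)
  inv_mem' := by
    rintro a (rfl | ha)
    · left; simp
    · right; rwa [R.rk_inv]

theorem Rank.mem_B {o : Ordinal.{0}} {x : G} : x ∈ R.B o ↔ x = 1 ∨ R.rk x < o := Iff.rfl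

theorem Rank.B_mono {o p : Ordinal.{0}} (h : o ≤ p) : R.B o ≤ R.B p := by
  rintro x (hx | hx)
  · exact Or.inl hx
  · exact Or.inr (hx.trans_le h)

/-- Removing the leading letter. -/
noncomputable def Rank.step (x : G) : G :=
  (Quotient.out (QuotientGroup.mk x : G ⧸ R.B (R.rk x)))⁻¹ * x

theorem Rank.step_mem (x : G) : R.step x ∈ R.B (R.rk x) := by
  unfold Rank.step
  rw [← QuotientGroup.eq]
  exact Quotient.out_eq _

theorem Rank.step_lt {x : G} (hx : x ≠ 1) : R.rk (R.step x) < R.rk x := by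
  rcases R.step_mem x with h | h
  · rw [h, (R.rk_eq_zero 1).2 rfl]
    exact pos_iff_ne_zero.2 fun h0 => hx ((R.rk_eq_zero x).1 h0)
  · exact h

theorem Rank.rk_mul_of_mem {x g : G} (hg : g ∈ R.B (R.rk x)) :
    R.rk (x * g) = R.rk x := by
  rcases hg with rfl | hg
  · simp
  · apply le_antisymm
    · exact (R.rk_mul x g).trans (max_le le_rfl hg.le)
    · have h1 : R.rk x ≤ max (R.rk (x * g)) (R.rk g⁻¹) := by
        simpa using R.rk_mul (x * g) g⁻¹
      rw [R.rk_inv] at h1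
      rcases le_max_iff.1 h1 with h | h
      · exact h
      · exact absurd hg (not_lt.2 h)

theorem Rank.step_mul {x g : G} (hg : g ∈ R.B (R.rk x)) :
    R.step (x * g) = R.step x * g := by
  unfold Rank.step
  have h1 := R.rk_mul_of_mem hg
  have h2 : ∀ o, o = R.rk x → (Quotient.out (QuotientGroup.mk (x * g) : G ⧸ R.B o)) =
      (Quotient.out (QuotientGroup.mk x : G ⧸ R.B (R.rk x))) := by
    rintro o rfl
    congr 1
    rw [QuotientGroup.eq]
    simpa using hg
  rw [h2 _ h1, mul_assoc]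

open Classical in
/-- Number of letters of rank at least `o`, and what remains after removing them. -/
noncomputable def Rank.cs (o : Ordinal.{0}) (x : G) : ℕ × G :=
  if h : x ∈ R.B o then (0, x)
  else ((Rank.cs o (R.step x)).1 + 1, (Rank.cs o (R.step x)).2)
termination_by R.rk x
decreasing_by
  all_goals exact R.step_lt (fun h1 => h (Or.inl h1))

theorem Rank.cs_of_mem {o : Ordinal.{0}} {x : G} (h : x ∈ R.B o) : R.cs o x = (0, x) := by
  rw [Rank.cs]; simp [h]

theorem Rank.cs_of_not_mem {o : Ordinal.{0}} {x : G} (h : x ∉ R.B o) :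
    R.cs o x = ((R.cs o (R.step x)).1 + 1, (R.cs o (R.step x)).2) := by
  rw [Rank.cs]; simp [h]

theorem Rank.induct {P : G → Prop}
    (h : ∀ x, (∀ y, R.rk y < R.rk x → P y) → P x) (x : G) : P x := by
  have : ∀ o : Ordinal.{0}, ∀ x, R.rk x = o → P x := by
    intro o
    induction o using WellFoundedLT.induction with
    | ind o ih =>
      intro x hx
      exact h x fun y hy => ih _ (hx ▸ hy) y rfl
  exact this _ x rfl

theorem Rank.cs_snd_mem (o : Ordinal.{0}) (x : G) : (R.cs o x).2 ∈ R.B o := by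
  induction x using R.induct with
  | h x ih =>
    by_cases h : x ∈ R.B o
    · rw [R.cs_of_mem h]; exact h
    · rw [R.cs_of_not_mem h]
      exact ih _ (R.step_lt fun h1 => h (Or.inl h1))

theorem Rank.cs_mul (o : Ordinal.{0}) {g : G} (hg : g ∈ R.B o) (x : G) :
    R.cs o (x * g) = ((R.cs o x).1, (R.cs o x).2 * g) := by
  induction x using R.induct with
  | h x ih =>
    by_cases h : x ∈ R.B o
    · rw [R.cs_of_mem h, R.cs_of_mem (mul_mem h hg)]
    · have hx : x ≠ 1 := fun h1 => h (Or.inl h1)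
      have hle : o ≤ R.rk x := not_lt.1 fun h1 => h (Or.inr h1)
      have h' : x * g ∉ R.B o := fun h1 => h (by simpa using mul_mem h1 (inv_mem hg))
      rw [R.cs_of_not_mem h', R.cs_of_not_mem h, R.step_mul (R.B_mono hle hg),
        ih _ (R.step_lt hx)]

theorem Rank.cs_add {o p : Ordinal.{0}} (hop : o ≤ p) (x : G) :
    (R.cs o x).1 = (R.cs p x).1 + (R.cs o (R.cs p x).2).1 := by
  induction x using R.induct with
  | h x ih =>
    by_cases h : x ∈ R.B p
    · rw [R.cs_of_mem h]; simp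
    · have hx : x ≠ 1 := fun h1 => h (Or.inl h1)
      have h' : x ∉ R.B o := fun h1 => h (R.B_mono hop h1)
      rw [R.cs_of_not_mem h', R.cs_of_not_mem h, ih _ (R.step_lt hx)]
      simp only
      omega

theorem Rank.cs_pos {o : Ordinal.{0}} {x : G} (h : x ∉ R.B o) : 1 ≤ (R.cs o x).1 := by
  rw [R.cs_of_not_mem h]; simp

/-- A level `o` is good for `θ`: small subsets below `o` are bounded, with a new element. -/
def Rank.Good (θ : Cardinal.{0}) (o : Ordinal.{0}) : Prop :=
  ∀ F : Set G, #F < θ → F ⊆ R.B o → ∀ p < o,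
    ∃ d, p ≤ d ∧ F ⊆ R.B d ∧ ∃ g ∈ R.B o, g ∉ R.B d

theorem Rank.long_right {θ : Cardinal.{0}} (γ : ℕ → Ordinal.{0}) (hγ : StrictMono γ)
    (hgood : ∀ n, R.Good θ (γ n)) (n : ℕ) :
    ∀ F : Set G, #F < θ → ∃ g ∈ R.B (γ n), ∀ h ∈ F,
      (R.cs (γ n) h).1 + n ≤ (R.cs 0 (h * g)).1 := by
  induction n with
  | zero =>
    intro F _
    refine ⟨1, one_mem _, fun h _ => ?_⟩
    rw [mul_one, R.cs_add (zero_le : (0 : Ordinal.{0}) ≤ γ 0) h]
    omega
  | succ n ih =>
    intro F hF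
    have hlt : γ n < γ (n + 1) := hγ (Nat.lt_succ_self n)
    obtain ⟨d, hd1, hd2, g₁, hg₁, hg₁'⟩ := hgood (n + 1) ((fun h => (R.cs (γ (n + 1)) h).2) '' F)
      (lt_of_le_of_lt Cardinal.mk_image_le hF)
      (by rintro _ ⟨h, -, rfl⟩; exact R.cs_snd_mem _ _) (γ n) hlt
    obtain ⟨g₂, hg₂, H⟩ := ih ((fun h => h * g₁) '' F) (lt_of_le_of_lt Cardinal.mk_image_le hF)
    refine ⟨g₁ * g₂, mul_mem hg₁ (R.B_mono hlt.le hg₂), fun h hh => ?_⟩
    have h1 := H (h * g₁) ⟨h, hh, rfl⟩
    have h2 := R.cs_add hlt.le (h * g₁)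
    rw [R.cs_mul _ hg₁] at h2
    simp only at h2
    have h3 : (R.cs (γ (n + 1)) h).2 * g₁ ∉ R.B (γ n) := by
      intro h4
      apply hg₁'
      have h5 : (R.cs (γ (n + 1)) h).2 ∈ R.B d := hd2 ⟨h, hh, rfl⟩
      simpa using mul_mem (inv_mem h5) (R.B_mono hd1 h4)
    have h6 := R.cs_pos h3
    rw [← mul_assoc]
    omega

theorem Rank.long_left {θ : Cardinal.{0}} (hθ : 1 < θ) {o : Ordinal.{0}} (ho : ∀ x, x ∈ R.B o)
    (hgood : R.Good θ o) {p : Ordinal.{0}} (hp : p < o) (n : ℕ) :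
    ∃ u : G, ∀ f ∈ R.B p, n ≤ (R.cs 0 (u * f)).1 := by
  induction n with
  | zero => exact ⟨1, fun _ _ => Nat.zero_le _⟩
  | succ n ih =>
    obtain ⟨u, hu⟩ := ih
    obtain ⟨d, hd1, hd2, v, -, hv⟩ := hgood {u} (by simpa using hθ) (fun x _ => ho x) p hp
    have hud : u ∈ R.B d := hd2 rfl
    refine ⟨v * ((R.cs d v).2)⁻¹ * u, fun f hf => ?_⟩
    have hw : ((R.cs d v).2)⁻¹ * u * f ∈ R.B d :=
      mul_mem (mul_mem (inv_mem (R.cs_snd_mem _ _)) hud) (R.B_mono hd1 hf)
    have h1 := R.cs_add (zero_le : (0 : Ordinal.{0}) ≤ d) (v * (((R.cs d v).2)⁻¹ * u * f))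
    rw [R.cs_mul _ hw] at h1
    simp only at h1
    have h2 : (R.cs d v).2 * (((R.cs d v).2)⁻¹ * u * f) = u * f := by group
    rw [h2] at h1
    have h3 := R.cs_pos hv
    have h4 := hu f hf
    have h5 : v * ((R.cs d v).2)⁻¹ * u * f = v * (((R.cs d v).2)⁻¹ * u * f) := by group
    rw [h5]
    omega

end Pool.Agent.P.MP_08cc25_al
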