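import Mathlib

/-!
The depth colouring of a group. Every uncountable subgroup is written as a well ordered chain of
smaller subgroups, and the depth of an element is the number of steps needed to reach a countable
subgroup containing it.
-/

set_option autoImplicit false

namespace Pool.Agent.P.MP_08cc25_al.Hedge

open Cardinal

universe u

variable {G : Type u} [Group G]

theorem mk_closure_le (s : Set G) : #(Subgroup.closure s) ≤ max #s ℵ₀ := by
  rcases s.eq_empty_or_nonempty with rfl | hs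
  · rw [Subgroup.closure_empty]
    refine le_trans ?_ (le_max_right _ _)
    exact Cardinal.mk_le_aleph0
  · have : Nonempty s := hs.to_subtype
    rw [← Cardinal.mk_freeGroup]
    have h : (FreeGroup.lift (Subtype.val : s → G)).range = Subgroup.closure s := by
      rw [FreeGroup.range_lift_eq_closure, Subtype.range_coe]
    rw [← h]
    exact Cardinal.mk_range_le

/-- Along a well ordered chain of subgroups, the first index catching `u * w⁻¹` lies in a finite
set depending on `u` alone or in a finite set depending on `w` alone. -/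
theorem ultra {ι : Type*} [LinearOrder ι] [WellFoundedLT ι] (L : ι → Subgroup G)
    (hL : Monotone L) :
    ∃ P : G → Set ι, (∀ u, (P u).Finite) ∧
      ∀ u w j, IsLeast {j | u * w⁻¹ ∈ L j} j → j ∈ P u ∪ P w := by
  obtain ⟨lo, wo⟩ := exists_wellFoundedLT G
  have hne : ∀ u j, ({w | u * w⁻¹ ∈ L j} : Set G).Nonempty := fun u j => ⟨u, by simp⟩
  let r : G → ι → G := fun u j => wo.wf.min {w | u * w⁻¹ ∈ L j} (hne u j)
  have hr1 : ∀ u j, u * (r u j)⁻¹ ∈ L j := fun u j => wo.wf.min_mem _ (hne u j)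
  have hr2 : ∀ u j w, u * w⁻¹ ∈ L j → r u j ≤ w := fun u j w hw =>
    not_lt.1 (wo.wf.not_lt_min {w | u * w⁻¹ ∈ L j} hw)
  have hanti : ∀ u j j', j ≤ j' → r u j' ≤ r u j := fun u j j' h =>
    hr2 u j' _ (hL h (hr1 u j))
  refine ⟨fun u => {j | ∀ j' < j, r u j' ≠ r u j}, ?_, ?_⟩
  · intro u
    have : WellFoundedGT {j | ∀ j' < j, r u j' ≠ r u j} := by
      refine ⟨Subrelation.wf (r := InvImage (· < ·) (fun j => r u j.1)) ?_
        (InvImage.wf _ wo.wf)⟩
      intro a b hab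
      have hab' : b.1 < a.1 := hab
      exact lt_of_le_of_ne (hanti u _ _ hab'.le) (a.2 _ hab').symm
    exact Finite.of_wellFoundedLT_wellFoundedGT _
  · intro u w j hj
    by_contra hcon
    simp only [Set.mem_union, Set.mem_ofPred_eq, not_or, not_forall, not_not] at hcon
    obtain ⟨⟨j₁, h₁, e₁⟩, ⟨j₂, h₂, e₂⟩⟩ := hcon
    have huw : u * w⁻¹ ∈ L j := hj.1
    have e : r u j = r w j := by
      apply le_antisymm
      · apply hr2
        simpa using mul_mem huw (hr1 w j)
      · apply hr2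
        simpa using mul_mem (inv_mem huw) (hr1 u j)
    have a₁ : u * (r u j)⁻¹ ∈ L (max j₁ j₂) := hL (le_max_left _ _) (e₁ ▸ hr1 u j₁)
    have a₂ : w * (r u j)⁻¹ ∈ L (max j₁ j₂) := hL (le_max_right _ _) (e ▸ e₂ ▸ hr1 w j₂)
    have a₃ : u * w⁻¹ ∈ L (max j₁ j₂) := by simpa using mul_mem a₁ (inv_mem a₂)
    exact absurd (hj.2 a₃) (not_le.2 (max_lt h₁ h₂))

theorem exists_child (M : Subgroup G) :
    ∃ (ch : G → Subgroup G) (Q : G → Set (Subgroup G)), (∀ u, (Q u).Finite) ∧
      (ℵ₀ < #M → ∀ x ∈ M, x ∈ ch x ∧ #(ch x) < #M) ∧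
      (∀ u w, u * w⁻¹ ∈ M → ch (u * w⁻¹) ∈ Q u ∪ Q w) := by
  classical
  obtain ⟨lo, wo, hM⟩ := Cardinal.exists_ord_eq_type_lt M
  let L : M → Subgroup G := fun i => Subgroup.closure (Subtype.val '' Set.Iic i)
  have hL : Monotone L := fun i j h =>
    Subgroup.closure_mono (Set.image_mono (Set.Iic_subset_Iic.2 h))
  have hne : ∀ x ∈ M, ({i | x ∈ L i} : Set M).Nonempty := fun x hx =>
    ⟨⟨x, hx⟩, Subgroup.subset_closure ⟨⟨x, hx⟩, le_rfl, rfl⟩⟩
  obtain ⟨P, hP1, hP2⟩ := ultra L hL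
  refine ⟨fun x => if h : x ∈ M then L (wo.wf.min _ (hne x h)) else ⊤, fun u => L '' P u,
    fun u => (hP1 u).image _, ?_, ?_⟩
  · intro h0 x hx
    simp only [hx, dif_pos]
    refine ⟨wo.wf.min_mem _ (hne x hx), ?_⟩
    refine lt_of_le_of_lt (mk_closure_le _) (max_lt ?_ h0)
    refine lt_of_le_of_lt Cardinal.mk_image_le ?_
    rw [← Set.Iio_insert]
    refine lt_of_le_of_lt Cardinal.mk_insert_le ?_
    exact Cardinal.add_lt_of_lt h0.le (Cardinal.mk_Iio_lt _ hM)
      (lt_trans Cardinal.one_lt_aleph0 h0)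
  · intro u w h
    simp only [h, dif_pos]
    have := hP2 u w (wo.wf.min _ (hne _ h))
      ⟨wo.wf.min_mem _ (hne _ h), fun j hj => not_lt.1 (wo.wf.not_lt_min _ hj)⟩
    rcases this with h1 | h1
    · exact Or.inl ⟨_, h1, rfl⟩
    · exact Or.inr ⟨_, h1, rfl⟩

/-- The smaller subgroup that catches `x` first in the chain chosen for `M`. -/
noncomputable def child (M : Subgroup G) : G → Subgroup G := (exists_child M).choose

/-- The finitely many members of the chain for `M` that are named by `u`. -/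
noncomputable def named (M : Subgroup G) : G → Set (Subgroup G) :=
  (exists_child M).choose_spec.choose

theorem named_finite (M : Subgroup G) (u : G) : (named M u).Finite :=
  (exists_child M).choose_spec.choose_spec.1 u

theorem child_spec {M : Subgroup G} (h : ℵ₀ < #M) {x : G} (hx : x ∈ M) :
    x ∈ child M x ∧ #(child M x) < #M :=
  (exists_child M).choose_spec.choose_spec.2.1 h x hx

theorem child_mem {M : Subgroup G} {u w : G} (h : u * w⁻¹ ∈ M) :
    child M (u * w⁻¹) ∈ named M u ∪ named M w :=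
  (exists_child M).choose_spec.choose_spec.2.2 u w h

open Classical in
/-- Number of steps from `M` down to a countable subgroup containing `x`. -/
noncomputable def depth (M : Subgroup G) (x : G) : ℕ :=
  if h : ℵ₀ < #M ∧ x ∈ M then depth (child M x) x + 1 else 0
termination_by #M
decreasing_by exact (child_spec h.1 h.2).2

theorem depth_pos {M : Subgroup G} {x : G} (h : ℵ₀ < #M) (hx : x ∈ M) :
    depth M x = depth (child M x) x + 1 := by
  rw [depth]; simp [h, hx]

theorem depth_zero {M : Subgroup G} {x : G} (h : ¬ ℵ₀ < #M) : depth M x = 0 := by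
  rw [depth]; simp [h]

theorem mk_biUnion_le' {α β : Type u} {θ : Cardinal.{u}} (hθ : ℵ₀ ≤ θ) {s : Set α}
    {f : α → Set β} (hs : #s ≤ θ) (hf : ∀ a ∈ s, #(f a) ≤ θ) : #(⋃ a ∈ s, f a) ≤ θ := by
  refine (Cardinal.mk_biUnion_le f s).trans ?_
  calc #s * ⨆ x : s, #(f x.1) ≤ θ * θ :=
        mul_le_mul' hs (ciSup_le' fun x => hf x.1 x.2)
    _ = θ := Cardinal.mul_eq_self hθ

theorem le_iterate_succ (θ : Cardinal.{u}) (k : ℕ) : θ ≤ Order.succ^[k] θ := by
  induction k with
  | zero => exact le_rfl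
  | succ k ih => rw [Function.iterate_succ_apply']; exact ih.trans (Order.le_succ _)

/-- A set with at least `2 ^ n` more cardinal steps than a family of two sided translates
generates an element that is deep in all of them. -/
theorem deep (n : ℕ) : ∀ (θ : Cardinal.{u}), ℵ₀ ≤ θ → ∀ X : Set G,
    Order.succ^[2 ^ n] θ ≤ #X → ∀ T : Set (Subgroup G × G × G), #T ≤ θ →
      ∃ g ∈ Subgroup.closure X, ∀ t ∈ T, t.2.1 * g * t.2.2 ∈ t.1 →
        n < depth t.1 (t.2.1 * g * t.2.2) := by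
  induction n with
  | zero =>
    intro θ hθ X hX T hT
    have h1 : #(⋃ t ∈ T, {g : G | t.2.1 * g * t.2.2 ∈ t.1 ∧ ¬ ℵ₀ < #t.1}) ≤ θ := by
      apply mk_biUnion_le' hθ hT
      intro t _
      by_cases h : ℵ₀ < #t.1
      · simp [h]
      · refine le_trans ?_ ((not_lt.1 h).trans hθ)
        refine Cardinal.mk_le_of_injective
          (f := fun g => (⟨t.2.1 * g.1 * t.2.2, g.2.1⟩ : t.1)) ?_
        intro a b hab
        have := congrArg Subtype.val hab
        simp only [mul_left_inj, mul_right_inj] at this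
        exact Subtype.ext this
    have h2 : ¬ X ⊆ ⋃ t ∈ T, {g : G | t.2.1 * g * t.2.2 ∈ t.1 ∧ ¬ ℵ₀ < #t.1} := by
      intro h
      have h3 := (hX.trans (Cardinal.mk_le_mk_of_subset h)).trans h1
      simp only [pow_zero, Function.iterate_one] at h3
      exact absurd h3 (not_le.2 (Order.lt_succ θ))
    obtain ⟨g, hg1, hg2⟩ := Set.not_subset.1 h2
    refine ⟨g, Subgroup.subset_closure hg1, fun t ht hm => ?_⟩
    by_cases h : ℵ₀ < #t.1
    · rw [depth_pos h hm]; omega
    · exact (hg2 (Set.mem_iUnion₂.2 ⟨t, ht, hm, h⟩)).elim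
  | succ n ih =>
    intro θ hθ X hX T hT
    set θ₁ := Order.succ^[2 ^ n] θ with hθ₁
    have hle : θ ≤ θ₁ := le_iterate_succ θ _
    have hθ₁' : ℵ₀ ≤ θ₁ := hθ.trans hle
    have hX' : Order.succ^[2 ^ n] θ₁ ≤ #X := by
      rwa [hθ₁, ← Function.iterate_add_apply, ← two_mul, ← pow_succ']
    obtain ⟨X₁, hX₁, hX₁c⟩ := Cardinal.le_mk_iff_exists_subset.1
      ((le_iterate_succ θ₁ _).trans hX')
    have hfin : ∀ (M : Subgroup G) (u a b : G) (η : Cardinal.{u}), ℵ₀ ≤ η →
        #((fun N => (N, a, b)) '' insert M (named M u)) ≤ η := by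
      intro M u a b η hη
      refine Cardinal.mk_image_le.trans (le_trans ?_ hη)
      exact (Cardinal.lt_aleph0_iff_set_finite.2 ((named_finite M u).insert M)).le
    obtain ⟨g₂, hg₂, H₂⟩ := ih θ₁ hθ₁' X hX'
      (⋃ g₁ ∈ (Subgroup.closure X₁ : Set G), ⋃ t ∈ T,
        (fun N => (N, t.2.1 * g₁, t.2.2)) '' insert t.1 (named t.1 (t.2.1 * g₁))) (by
      apply mk_biUnion_le' hθ₁'
      · exact (mk_closure_le X₁).trans (max_le hX₁c.le hθ₁')
      · intro g₁ _
        exact mk_biUnion_le' hθ₁' (hT.trans hle) fun t _ => hfin _ _ _ _ _ hθ₁')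
    obtain ⟨g₁, hg₁, H₁⟩ := ih θ hθ X₁ hX₁c.ge
      (⋃ t ∈ T, (fun N => (N, t.2.1, g₂ * t.2.2)) '' insert t.1 (named t.1 (g₂ * t.2.2)⁻¹))
      (mk_biUnion_le' hθ hT fun t _ => hfin _ _ _ _ _ hθ)
    refine ⟨g₁ * g₂, mul_mem (Subgroup.closure_mono hX₁ hg₁) hg₂, fun t ht hm => ?_⟩
    have e₂ : t.2.1 * (g₁ * g₂) * t.2.2 = t.2.1 * g₁ * g₂ * t.2.2 := by group
    have e₁ : t.2.1 * (g₁ * g₂) * t.2.2 = t.2.1 * g₁ * (g₂ * t.2.2) := by group
    have e₀ : t.2.1 * (g₁ * g₂) * t.2.2 = t.2.1 * g₁ * ((g₂ * t.2.2)⁻¹)⁻¹ := by group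
    have K₂ : ∀ N ∈ insert t.1 (named t.1 (t.2.1 * g₁)), t.2.1 * (g₁ * g₂) * t.2.2 ∈ N →
        n < depth N (t.2.1 * (g₁ * g₂) * t.2.2) := by
      intro N hN hmN
      rw [e₂] at hmN ⊢
      exact H₂ (N, t.2.1 * g₁, t.2.2)
        (Set.mem_biUnion hg₁ (Set.mem_biUnion ht ⟨N, hN, rfl⟩)) hmN
    have K₁ : ∀ N ∈ insert t.1 (named t.1 (g₂ * t.2.2)⁻¹), t.2.1 * (g₁ * g₂) * t.2.2 ∈ N →
        n < depth N (t.2.1 * (g₁ * g₂) * t.2.2) := by
      intro N hN hmN
      rw [e₁] at hmN ⊢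
      exact H₁ (N, t.2.1, g₂ * t.2.2) (Set.mem_biUnion ht ⟨N, hN, rfl⟩) hmN
    have hunc : ℵ₀ < #t.1 := by
      by_contra h
      have := K₂ t.1 (Set.mem_insert _ _) hm
      rw [depth_zero h] at this
      omega
    rw [depth_pos hunc hm]
    have hc := (child_spec hunc hm).1
    have hn : child t.1 (t.2.1 * (g₁ * g₂) * t.2.2) ∈
        named t.1 (t.2.1 * g₁) ∪ named t.1 (g₂ * t.2.2)⁻¹ := by
      rw [e₀] at hm ⊢
      exact child_mem hm
    rcases hn with h | h
    · have := K₂ _ (Set.mem_insert_of_mem _ h) hc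
      omega
    · have := K₁ _ (Set.mem_insert_of_mem _ h) hc
      omega

end Pool.Agent.P.MP_08cc25_al.Hedge
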