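import Pool.Agent.P.MP_08cc25_al.HDepth

/-!
Normal forms along a rank function on a group, in any universe, and their use for groups of
regular cardinality.
-/

set_option autoImplicit false

namespace Pool.Agent.P.MP_08cc25_al.Hedge

open Cardinal Ordinal

universe u

/-- An ultrametric rank function on a group with ordinal values. -/
structure Rank (G : Type u) [Group G] where
  rk : G → Ordinal.{u}
  rk_eq_zero : ∀ x, rk x = 0 ↔ x = 1
  rk_mul : ∀ x y, rk (x * y) ≤ max (rk x) (rk y)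
  rk_inv : ∀ x, rk x⁻¹ = rk x

variable {G : Type u} [Group G] (R : Rank G)

/-- The subgroup of elements of rank below `o`, together with the identity. -/
def Rank.B (o : Ordinal.{u}) : Subgroup G where
  carrier := {x | x = 1 ∨ R.rk x < o}
  one_mem' := Or.inl rfl
  mul_mem' := by
    rintro a b (rfl | ha) hb
    · simpa using hb
    · rcases hb with rfl | hb
      · right; simpa using ha
      · right; exact lt_of_le_of_lt (R.rk_mul a b) (max_lt ha hb)
  inv_mem' := by
    rintro a (rfl | ha)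
    · left; simp
    · right; rwa [R.rk_inv]

theorem Rank.mem_B {o : Ordinal.{u}} {x : G} : x ∈ R.B o ↔ x = 1 ∨ R.rk x < o := Iff.rfl

theorem Rank.B_mono {o p : Ordinal.{u}} (h : o ≤ p) : R.B o ≤ R.B p := by
  rintro x (hx | hx)
  · exact Or.inl hx
  · exact Or.inr (hx.trans_le h)

/-- Removing the leading letter. -/
noncomputable def Rank.step (x : G) : G :=
  (Quotient.out (QuotientGroup.mk x : G ⧸ R.B (R.rk x)))⁻¹ * x

theorem Rank.step_mem (x : G) : R.step x ∈ R.B (R.rk x) := by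
  unfold Rank.step
  rw [← QuotientGroup.eq]
  exact Quotient.out_eq _

theorem Rank.step_lt {x : G} (hx : x ≠ 1) : R.rk (R.step x) < R.rk x := by
  rcases R.step_mem x with h | h
  · rw [h, (R.rk_eq_zero 1).2 rfl]
    exact pos_iff_ne_zero.2 fun h0 => hx ((R.rk_eq_zero x).1 h0)
  · exact h

theorem Rank.rk_mul_of_mem {x g : G} (hg : g ∈ R.B (R.rk x)) :
    R.rk (x * g) = R.rk x := by
  rcases hg with rfl | hg
  · simp
  · apply le_antisymm
    · exact (R.rk_mul x g).trans (max_le le_rfl hg.le)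
    · have h1 : R.rk x ≤ max (R.rk (x * g)) (R.rk g⁻¹) := by
        simpa using R.rk_mul (x * g) g⁻¹
      rw [R.rk_inv] at h1
      rcases le_max_iff.1 h1 with h | h
      · exact h
      · exact absurd hg (not_lt.2 h)

theorem Rank.step_mul {x g : G} (hg : g ∈ R.B (R.rk x)) :
    R.step (x * g) = R.step x * g := by
  unfold Rank.step
  have h1 := R.rk_mul_of_mem hg
  have h2 : ∀ o, o = R.rk x → (Quotient.out (QuotientGroup.mk (x * g) : G ⧸ R.B o)) =
      (Quotient.out (QuotientGroup.mk x : G ⧸ R.B (R.rk x))) := by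
    rintro o rfl
    congr 1
    rw [QuotientGroup.eq]
    simpa using hg
  rw [h2 _ h1, mul_assoc]

open Classical in
/-- Number of letters of rank at least `o`, and what remains after removing them. -/
noncomputable def Rank.cs (o : Ordinal.{u}) (x : G) : ℕ × G :=
  if h : x ∈ R.B o then (0, x)
  else ((Rank.cs o (R.step x)).1 + 1, (Rank.cs o (R.step x)).2)
termination_by R.rk x
decreasing_by
  all_goals exact R.step_lt (fun h1 => h (Or.inl h1))

theorem Rank.cs_of_mem {o : Ordinal.{u}} {x : G} (h : x ∈ R.B o) : R.cs o x = (0, x) := by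
  rw [Rank.cs]; simp [h]

theorem Rank.cs_of_not_mem {o : Ordinal.{u}} {x : G} (h : x ∉ R.B o) :
    R.cs o x = ((R.cs o (R.step x)).1 + 1, (R.cs o (R.step x)).2) := by
  rw [Rank.cs]; simp [h]

theorem Rank.induct {P : G → Prop}
    (h : ∀ x, (∀ y, R.rk y < R.rk x → P y) → P x) (x : G) : P x := by
  have : ∀ o : Ordinal.{u}, ∀ x, R.rk x = o → P x := by
    intro o
    induction o using WellFoundedLT.induction with
    | ind o ih =>
      intro x hx
      exact h x fun y hy => ih _ (hx ▸ hy) y rfl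
  exact this _ x rfl

theorem Rank.cs_snd_mem (o : Ordinal.{u}) (x : G) : (R.cs o x).2 ∈ R.B o := by
  induction x using R.induct with
  | h x ih =>
    by_cases h : x ∈ R.B o
    · rw [R.cs_of_mem h]; exact h
    · rw [R.cs_of_not_mem h]
      exact ih _ (R.step_lt fun h1 => h (Or.inl h1))

theorem Rank.cs_mul (o : Ordinal.{u}) {g : G} (hg : g ∈ R.B o) (x : G) :
    R.cs o (x * g) = ((R.cs o x).1, (R.cs o x).2 * g) := by
  induction x using R.induct with
  | h x ih =>
    by_cases h : x ∈ R.B o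
    · rw [R.cs_of_mem h, R.cs_of_mem (mul_mem h hg)]
    · have hx : x ≠ 1 := fun h1 => h (Or.inl h1)
      have hle : o ≤ R.rk x := not_lt.1 fun h1 => h (Or.inr h1)
      have h' : x * g ∉ R.B o := fun h1 => h (by simpa using mul_mem h1 (inv_mem hg))
      rw [R.cs_of_not_mem h', R.cs_of_not_mem h, R.step_mul (R.B_mono hle hg),
        ih _ (R.step_lt hx)]

theorem Rank.cs_add {o p : Ordinal.{u}} (hop : o ≤ p) (x : G) :
    (R.cs o x).1 = (R.cs p x).1 + (R.cs o (R.cs p x).2).1 := by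
  induction x using R.induct with
  | h x ih =>
    by_cases h : x ∈ R.B p
    · rw [R.cs_of_mem h]; simp
    · have hx : x ≠ 1 := fun h1 => h (Or.inl h1)
      have h' : x ∉ R.B o := fun h1 => h (R.B_mono hop h1)
      rw [R.cs_of_not_mem h', R.cs_of_not_mem h, ih _ (R.step_lt hx)]
      simp only
      omega

theorem Rank.cs_pos {o : Ordinal.{u}} {x : G} (h : x ∉ R.B o) : 1 ≤ (R.cs o x).1 := by
  rw [R.cs_of_not_mem h]; simp

/-- A level `o` is good for `θ`: small subsets below `o` are bounded, with a new element. -/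
def Rank.Good (θ : Cardinal.{u}) (o : Ordinal.{u}) : Prop :=
  ∀ F : Set G, #F < θ → F ⊆ R.B o → ∀ p < o,
    ∃ d, p ≤ d ∧ F ⊆ R.B d ∧ ∃ g ∈ R.B o, g ∉ R.B d

theorem exists_rank (G : Type u) [Group G] :
    ∃ R : Rank G, (∀ x, ℵ₀ ≤ #G → R.rk x < (#G).ord) ∧
      ∀ c : Cardinal.{u}, c.IsRegular → ℵ₀ < c → c ≤ #G → R.Good c c.ord := by
  obtain ⟨r, wo, hr⟩ := Cardinal.exists_ord_eq G
  let L : Ordinal.{u} → Subgroup G := fun o => Subgroup.closure {y | typein r y < o}
  have hLmono : ∀ o p, o ≤ p → L o ≤ L p := fun o p h =>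
    Subgroup.closure_mono fun y hy => lt_of_lt_of_le (show typein r y < o from hy) h
  have hmem : ∀ x, x ∈ L (Order.succ (typein r x)) := fun x =>
    Subgroup.subset_closure (Order.lt_succ (typein r x))
  let ρ : G → Ordinal.{u} := fun x => sInf {o | x ∈ L o}
  have hρ : ∀ x o, ρ x ≤ o ↔ x ∈ L o := by
    intro x o
    constructor
    · intro h
      exact hLmono _ _ h (csInf_mem (s := {o | x ∈ L o}) ⟨_, hmem x⟩)
    · intro h
      exact csInf_le' h
  have hL0 : L 0 = ⊥ := by
    simp [L]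
  let R : Rank G :=
    { rk := ρ
      rk_eq_zero := by
        intro x
        rw [← nonpos_iff_eq_zero, hρ, hL0, Subgroup.mem_bot]
      rk_mul := by
        intro x y
        rw [hρ]
        exact mul_mem ((hρ x _).1 (le_max_left _ _)) ((hρ y _).1 (le_max_right _ _))
      rk_inv := by
        intro x
        apply le_antisymm
        · rw [hρ]; exact inv_mem ((hρ x _).1 le_rfl)
        · rw [hρ]; simpa using inv_mem ((hρ x⁻¹ _).1 le_rfl) }
  have hcard : ∀ o, o ≤ type r → #{y | typein r y < o} = o.card := by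
    intro o ho
    rcases ho.lt_or_eq with ho | ho
    · obtain ⟨a, rfl⟩ := typein_surj r ho
      rw [card_typein]
      have : {y | typein r y < typein r a} = {y | r y a} := by
        ext y
        simp [typein_lt_typein]
      rw [this]
      rfl
    · subst ho
      rw [card_type]
      have : {y | typein r y < type r} = Set.univ := by
        ext y; simp [typein_lt_type]
      rw [this, Cardinal.mk_univ]
  refine ⟨R, ?_, ?_⟩
  · intro x hG
    have h1 : ρ x ≤ Order.succ (typein r x) := (hρ _ _).2 (hmem x)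
    refine lt_of_le_of_lt h1 ?_
    apply (Cardinal.isSuccLimit_ord hG).succ_lt
    rw [hr]
    exact typein_lt_type r x
  · intro c hc hc0 hcG F hF hFB p hp
    have hlim := Cardinal.isSuccLimit_ord hc0.le
    have hsup : (⨆ x : F, Order.succ (ρ x)) < c.ord := by
      apply Ordinal.iSup_lt_of_lt_cof (by rwa [hc.cof_ord])
      rintro ⟨x, hx⟩
      apply hlim.succ_lt
      rcases hFB hx with h | h
      · have h2 : ρ x = 0 := (R.rk_eq_zero x).2 h
        show ρ x < c.ord
        rw [h2]; exact hc.ord_pos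
      · exact h
    set d := max p (⨆ x : F, Order.succ (ρ x)) with hd
    have hdlt : d < c.ord := max_lt hp hsup
    have hco : c.ord ≤ type r := by rw [← hr]; exact Cardinal.ord_le_ord.2 hcG
    refine ⟨d, le_max_left _ _, ?_, ?_⟩
    · intro x hx
      right
      refine lt_of_lt_of_le (Order.lt_succ (ρ x)) (le_trans ?_ (le_max_right _ _))
      exact Ordinal.le_iSup (fun x : F => Order.succ (ρ x)) ⟨x, hx⟩
    · have h1 : #(L d) < c := by
        refine lt_of_le_of_lt (mk_closure_le _) (max_lt ?_ hc0)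
        rw [hcard d (hdlt.le.trans hco)]
        exact Cardinal.lt_ord.1 hdlt
      have h2 : #{y | typein r y < c.ord} = c := by rw [hcard _ hco, Cardinal.card_ord]
      have h3 : ¬ ({y | typein r y < c.ord} ⊆ (L d : Set G)) := by
        intro h
        have := Cardinal.mk_le_mk_of_subset h
        rw [h2] at this
        exact absurd h1 (not_lt.2 this)
      obtain ⟨y, hy1, hy2⟩ := Set.not_subset.1 h3
      refine ⟨y, Or.inr ?_, ?_⟩
      · exact lt_of_le_of_lt ((hρ _ _).2 (hmem y)) (hlim.succ_lt hy1)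
      · rintro (h | h)
        · exact hy2 (h ▸ one_mem _)
        · exact hy2 ((hρ _ _).1 (le_of_lt h))


/-- In a group whose ranks lie below a good level, finitely many right factors make every
element long above a given level. -/
theorem Rank.long_finite {G : Type u} [Group G] (R : Rank G) {θ : Cardinal.{u}} (hθ : 1 < θ)
    {o : Ordinal.{u}} (ho : ∀ x, x ∈ R.B o) (hgood : R.Good θ o) (n : ℕ) :
    ∀ p < o, ∃ F : Set G, F.Finite ∧ ∀ g, ∃ f ∈ F, n ≤ (R.cs p (g * f)).1 := by
  have hstep : ∀ (x : G), ∀ p < o, ∃ d < o, p ≤ d ∧ x ∈ R.B d ∧ ∃ v, v ∉ R.B d := by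
    intro x p hp
    obtain ⟨d, hd1, hd2, v, -, hv⟩ := hgood {x} (by simpa using hθ) (fun y _ => ho y) p hp
    refine ⟨d, ?_, hd1, hd2 rfl, v, hv⟩
    by_contra hcon
    exact hv (R.B_mono (not_lt.1 hcon) (ho v))
  induction n with
  | zero => exact fun p _ => ⟨{1}, Set.finite_singleton _, fun g => ⟨1, rfl, Nat.zero_le _⟩⟩
  | succ n ih =>
    intro p hp
    obtain ⟨d, hd, hpd, -, v, hv⟩ := hstep 1 p hp
    have hvp : v ∉ R.B p := fun h => hv (R.B_mono hpd h)
    obtain ⟨q, hq, hpq, hvq, -⟩ := hstep v p hp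
    obtain ⟨F, hF, H⟩ := ih q hq
    refine ⟨F ∪ (fun f => f * v) '' F, hF.union (hF.image _), fun g => ?_⟩
    obtain ⟨f, hf, hn⟩ := H g
    by_cases hz : (R.cs q (g * f)).2 ∈ R.B p
    · refine ⟨f * v, Or.inr ⟨f, hf, rfl⟩, ?_⟩
      have h1 := R.cs_add hpq (g * f * v)
      rw [R.cs_mul _ hvq] at h1
      simp only at h1
      have h2 : (R.cs q (g * f)).2 * v ∉ R.B p := fun h =>
        hvp (by simpa using mul_mem (inv_mem hz) h)
      have h3 := R.cs_pos h2
      rw [← mul_assoc]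
      omega
    · refine ⟨f, Or.inl hf, ?_⟩
      have h1 := R.cs_add hpq (g * f)
      have h3 := R.cs_pos hz
      omega

theorem regular_right (G : Type u) [Group G] (h0 : ℵ₀ < #G) (hreg : (#G).IsRegular) :
    ∃ c : G → ℕ, ∀ n, ∀ H : Set G, #H < #G →
      ∃ F : Set G, #F < #G ∧ ∀ g, ∃ f ∈ F, ∀ h ∈ H, n < c (g * f * h) := by
  obtain ⟨R, hR1, hR2⟩ := exists_rank G
  have hall : ∀ x, x ∈ R.B (#G).ord := fun x => Or.inr (hR1 x h0.le)
  have hgood := hR2 _ hreg h0 le_rfl
  refine ⟨fun x => (R.cs 0 x).1, fun n H hH => ?_⟩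
  obtain ⟨d, -, hd, v, -, hv⟩ := hgood H hH (fun x _ => hall x) 0 hreg.ord_pos
  have hdlt : d < (#G).ord := by
    by_contra hcon
    exact hv (R.B_mono (not_lt.1 hcon) (hall v))
  obtain ⟨F, hF, HF⟩ := R.long_finite (lt_trans Cardinal.one_lt_aleph0 h0) hall hgood (n + 1) d hdlt
  refine ⟨F, (Cardinal.lt_aleph0_iff_set_finite.2 hF).trans h0, fun g => ?_⟩
  obtain ⟨f, hf, hn⟩ := HF g
  refine ⟨f, hf, fun h hh => ?_⟩
  have h1 := R.cs_add (zero_le : (0 : Ordinal.{u}) ≤ d) (g * f * h)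
  rw [R.cs_mul _ (hd hh)] at h1
  simp only at h1 ⊢
  omega

/-- A set without largest element in a well order has a colouring that omits every colour
arbitrarily high up. -/
theorem exists_alternating {α : Type*} [LinearOrder α] [WellFoundedLT α] (E : Set α)
    (hE : ∀ a ∈ E, ∃ b ∈ E, a < b) :
    ∃ k : α → ℕ, ∀ n, ∀ a ∈ E, ∃ b ∈ E, a ≤ b ∧ k b ≠ n := by
  classical
  have hne : ∀ a : E, ({b | b ∈ E ∧ a.1 < b} : Set α).Nonempty := fun a => hE a.1 a.2
  let s : E → α := fun a => wellFounded_lt.min _ (hne a)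
  have hs1 : ∀ a, s a ∈ E ∧ a.1 < s a := fun a => wellFounded_lt.min_mem _ (hne a)
  have hs2 : ∀ a : E, ∀ b ∈ E, a.1 < b → s a ≤ b := fun a b hb hab =>
    not_lt.1 (wellFounded_lt.not_lt_min {b | b ∈ E ∧ a.1 < b} ⟨hb, hab⟩)
  have hinj : ∀ a b : E, s a = s b → a = b := by
    intro a b hab
    rcases lt_trichotomy a.1 b.1 with h | h | h
    · exact absurd (hab ▸ hs2 a b.1 b.2 h) (not_le.2 (hs1 b).2)
    · exact Subtype.ext h
    · exact absurd (hab ▸ hs2 b a.1 a.2 h) (not_le.2 (hs1 a).2)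
  let k : α → ℕ := wellFounded_lt.fix fun b IH =>
    if h : ∃ a : E, s a = b then IH h.choose.1 ((hs1 h.choose).2.trans_eq h.choose_spec) + 1 else 0
  have hk : ∀ a : E, k (s a) = k a.1 + 1 := by
    intro a
    have h : ∃ a' : E, s a' = s a := ⟨a, rfl⟩
    have h1 : k (s a) = k h.choose.1 + 1 := by
      conv_lhs => simp only [k]; rw [WellFounded.fix_eq]
      rw [dif_pos h]
    rw [h1, hinj _ _ h.choose_spec]
  refine ⟨k, fun n a ha => ?_⟩
  by_cases h : k a = n
  · refine ⟨s ⟨a, ha⟩, (hs1 _).1, (hs1 ⟨a, ha⟩).2.le, ?_⟩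
    rw [hk]
    simp only
    omega
  · exact ⟨a, ha, le_rfl, h⟩

theorem regular_two (G : Type u) [Group G] (h0 : ℵ₀ < #G) (hreg : (#G).IsRegular) :
    ∃ c : G → ℕ, ∀ n, ∀ H : Set G, #H < #G →
      ∃ g, ∀ h ∈ H, ∀ h' ∈ H, c (h * g * h') ≠ n := by
  obtain ⟨R, hR1, hR2⟩ := exists_rank G
  have hall : ∀ x, x ∈ R.B (#G).ord := fun x => Or.inr (hR1 x h0.le)
  have hgood := hR2 _ hreg h0 le_rfl
  obtain ⟨k, hk⟩ := exists_alternating (Set.range R.rk) (by
    rintro _ ⟨x, rfl⟩
    obtain ⟨d, hd, -, v, -, hv⟩ := hgood ∅ (by simpa using hreg.pos) (by simp)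
      (Order.succ (R.rk x)) ((Cardinal.isSuccLimit_ord h0.le).succ_lt (hR1 x h0.le))
    refine ⟨R.rk v, ⟨v, rfl⟩, ?_⟩
    have : d ≤ R.rk v := not_lt.1 fun h => hv (Or.inr h)
    exact lt_of_lt_of_le (Order.lt_succ _) (hd.trans this))
  refine ⟨fun x => k (R.rk x), fun n H hH => ?_⟩
  obtain ⟨d, -, hd, v, -, hv⟩ := hgood H hH (fun x _ => hall x) 0 hreg.ord_pos
  obtain ⟨_, ⟨g, rfl⟩, hg1, hg2⟩ := hk n (R.rk v) ⟨v, rfl⟩
  have hdg : d ≤ R.rk g := (not_lt.1 fun h => hv (Or.inr h)).trans hg1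
  refine ⟨g, fun h hh h' hh' => ?_⟩
  have e1 : R.rk (h * g) = R.rk g := by
    rw [← R.rk_inv (h * g), mul_inv_rev, R.rk_mul_of_mem, R.rk_inv]
    rw [R.rk_inv]
    exact inv_mem (R.B_mono hdg (hd hh))
  have e2 : R.rk (h * g * h') = R.rk g := by
    rw [R.rk_mul_of_mem, e1]
    rw [e1]
    exact R.B_mono hdg (hd hh')
  simp only [e2]
  exact hg2

end Pool.Agent.P.MP_08cc25_al.Hedge
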