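import Pool.Agent.P.MP_08cc25_al.HRegular

/-!
Every infinite group is a countable disjoint union of small sets, and of sets that are not large
from both sides at once.
-/

set_option autoImplicit false

namespace Pool.Agent.P.MP_08cc25_al.Hedge

open Cardinal Pointwise

universe u

theorem iterate_succ_lt {κ θ : Cardinal.{u}} (hκ : Order.IsSuccLimit κ) (h : θ < κ) (k : ℕ) :
    Order.succ^[k] θ < κ := by
  induction k with
  | zero => exact h
  | succ k ih => rw [Function.iterate_succ_apply']; exact hκ.succ_lt ih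

/-- For an uncountable limit cardinality, one small set of middle factors serves all outer
factors. -/
theorem limit_middle (G : Type u) [Group G] (h0 : ℵ₀ < #G) (hlim : Order.IsSuccLimit #G)
    (n : ℕ) (H : Set G) (hH : #H < #G) :
    ∃ F : Set G, #F < #G ∧ ∀ g g' : G, ∃ f ∈ F, ∀ h ∈ H, ∀ h' ∈ H,
      n < depth (⊤ : Subgroup G) (h * g * f * (g' * h')) := by
  have hθ : ℵ₀ ≤ max #H ℵ₀ := le_max_right _ _
  have hlt := iterate_succ_lt hlim (max_lt hH h0) (2 ^ n)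
  obtain ⟨X, -, hX⟩ := Cardinal.le_mk_iff_exists_subset.1
    (show Order.succ^[2 ^ n] (max #H ℵ₀) ≤ #(Set.univ : Set G) by simpa using hlt.le)
  refine ⟨Subgroup.closure X, (mk_closure_le X).trans_lt (max_lt (hX ▸ hlt) h0), fun g g' => ?_⟩
  obtain ⟨f, hf, Hf⟩ := deep n _ hθ X hX.ge
    (Set.image2 (fun h h' => ((⊤ : Subgroup G), h * g, g' * h')) H H) (by
      refine Cardinal.mk_image2_le.trans ?_
      calc #H * #H ≤ max #H ℵ₀ * max #H ℵ₀ := mul_le_mul' (le_max_left _ _) (le_max_left _ _)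
        _ = max #H ℵ₀ := Cardinal.mul_eq_self hθ)
  exact ⟨f, hf, fun h hh h' hh' => Hf _ ⟨h, hh, h', hh', rfl⟩ (Subgroup.mem_top _)⟩

theorem exists_right (G : Type u) [Group G] (hG : Infinite G) :
    ∃ c : G → ℕ, ∀ n, ∀ H : Set G, #H < #G →
      ∃ F : Set G, #F < #G ∧ ∀ g, ∃ f ∈ F, ∀ h ∈ H, c (g * f * h) ≠ n := by
  have hinf : ℵ₀ ≤ #G := Cardinal.aleph0_le_mk G
  rcases hinf.eq_or_lt with h0 | h0
  · have : Countable G := Cardinal.mk_le_aleph0_iff.1 h0.ge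
    obtain ⟨c, hc⟩ := Countable.exists_injective_nat G
    refine ⟨c, fun n H hH => ?_⟩
    have h1 : #H + 1 < #G := Cardinal.add_lt_of_lt hinf hH (Cardinal.one_lt_aleph0.trans_le hinf)
    obtain ⟨F, -, hF⟩ := Cardinal.le_mk_iff_exists_subset.1
      (show #H + 1 ≤ #(Set.univ : Set G) by rw [Cardinal.mk_univ]; exact h1.le)
    refine ⟨F, hF ▸ h1, fun g => ?_⟩
    by_contra hcon
    push Not at hcon
    choose φ hφ1 hφ2 using hcon
    have h2 : #F ≤ #H := by
      refine Cardinal.mk_le_of_injective (f := fun f => (⟨φ f.1 f.2, hφ1 f.1 f.2⟩ : H)) ?_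
      intro a b hab
      have e1 : φ a.1 a.2 = φ b.1 b.2 := congrArg Subtype.val hab
      have e2 := hc ((hφ2 a.1 a.2).trans (hφ2 b.1 b.2).symm)
      rw [e1] at e2
      exact Subtype.ext (by simpa using e2)
    rw [hF] at h2
    obtain ⟨m, hm⟩ := Cardinal.lt_aleph0.1 (h0 ▸ hH)
    rw [hm] at h2
    norm_cast at h2
    omega
  · rcases Cardinal.isRegular_or_isSingular hinf with hreg | hsing
    · obtain ⟨c, hc⟩ := regular_right G h0 hreg
      refine ⟨c, fun n H hH => ?_⟩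
      obtain ⟨F, hF, HF⟩ := hc n H hH
      refine ⟨F, hF, fun g => ?_⟩
      obtain ⟨f, hf, Hf⟩ := HF g
      exact ⟨f, hf, fun h hh => (Hf h hh).ne'⟩
    · refine ⟨depth ⊤, fun n H hH => ?_⟩
      obtain ⟨F, hF, HF⟩ := limit_middle G h0 hsing.isSuccLimit n (insert 1 H)
        (Cardinal.mk_insert_le.trans_lt
          (Cardinal.add_lt_of_lt hinf hH (Cardinal.one_lt_aleph0.trans h0)))
      refine ⟨F, hF, fun g => ?_⟩
      obtain ⟨f, hf, Hf⟩ := HF g 1
      refine ⟨f, hf, fun h hh => ?_⟩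
      have := Hf 1 (Set.mem_insert _ _) h (Set.mem_insert_of_mem _ hh)
      simp only [one_mul] at this
      exact this.ne'

theorem exists_two (G : Type u) [Group G] (hG : Infinite G) :
    ∃ c : G → ℕ, ∀ n, ∀ H : Set G, #H < #G →
      ∃ g, ∀ h ∈ H, ∀ h' ∈ H, c (h * g * h') ≠ n := by
  have hinf : ℵ₀ ≤ #G := Cardinal.aleph0_le_mk G
  rcases hinf.eq_or_lt with h0 | h0
  · have : Countable G := Cardinal.mk_le_aleph0_iff.1 h0.ge
    obtain ⟨c, hc⟩ := Countable.exists_injective_nat G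
    refine ⟨c, fun n H hH => ?_⟩
    have hfin : H.Finite := Cardinal.lt_aleph0_iff_set_finite.1 (h0 ▸ hH)
    have hfin2 : (H⁻¹ * {x | c x = n} * H⁻¹).Finite := by
      refine (hfin.inv.mul ?_).mul hfin.inv
      apply Set.Subsingleton.finite
      intro x hx y hy
      exact hc (hx.trans hy.symm)
    obtain ⟨g, hg⟩ := hfin2.exists_notMem
    refine ⟨g, fun h hh h' hh' e => hg ⟨h⁻¹ * (h * g * h'), ⟨h⁻¹, by simpa using hh, _, e, rfl⟩,
      h'⁻¹, by simpa using hh', by show h⁻¹ * (h * g * h') * h'⁻¹ = g; group⟩⟩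
  · rcases Cardinal.isRegular_or_isSingular hinf with hreg | hsing
    · exact regular_two G h0 hreg
    · refine ⟨depth ⊤, fun n H hH => ?_⟩
      obtain ⟨F, -, HF⟩ := limit_middle G h0 hsing.isSuccLimit n H hH
      obtain ⟨f, -, Hf⟩ := HF 1 1
      refine ⟨f, fun h hh h' hh' => ?_⟩
      have := Hf h hh h' hh'
      simp only [one_mul, mul_one] at this
      exact this.ne'

theorem partition_of {G : Type u} (c : G → ℕ) :
    (⋃ n, {x | c x = n}) = Set.univ ∧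
      Pairwise (fun i j => Disjoint {x | c x = i} {x | c x = j}) := by
  refine ⟨by ext x; simp, fun i j hij => ?_⟩
  exact Set.disjoint_left.2 fun x h1 h2 => hij (h1.symm.trans h2)

theorem small_pieces (G : Type u) [Group G] (hG : Infinite G) :
    ∃ A : ℕ → Set G,
      (⋃ n, A n) = Set.univ ∧
      Pairwise (fun i j => Disjoint (A i) (A j)) ∧
      ∀ n,
        (∀ L : Set G, (∃ F : Set G, #F < #G ∧ F * L = Set.univ) →
          ∃ F : Set G, #F < #G ∧ F * (L \ A n) = Set.univ) ∧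
        (∀ L : Set G, (∃ F : Set G, #F < #G ∧ L * F = Set.univ) →
          ∃ F : Set G, #F < #G ∧ (L \ A n) * F = Set.univ) := by
  have hinf : ℵ₀ ≤ #G := Cardinal.aleph0_le_mk G
  obtain ⟨c, hc⟩ := exists_right G hG
  refine ⟨fun n => {x | Nat.pair (c x) (c x⁻¹) = n}, (partition_of _).1, (partition_of _).2,
    fun n => ⟨?_, ?_⟩⟩
  · rintro L ⟨F₀, hF₀, hL⟩
    obtain ⟨F, hF, HF⟩ := hc n.unpair.2 F₀ hF₀
    refine ⟨F * F₀, Cardinal.mk_mul_le.trans_lt (Cardinal.mul_lt_of_lt hinf hF hF₀), ?_⟩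
    refine Set.eq_univ_of_forall fun g => ?_
    obtain ⟨f, hf, Hf⟩ := HF g⁻¹
    obtain ⟨f₀, hf₀, l, hl, e⟩ : f⁻¹ * g ∈ F₀ * L := hL ▸ Set.mem_univ _
    have e' : f₀ * l = f⁻¹ * g := e
    refine ⟨f * f₀, ⟨f, hf, f₀, hf₀, rfl⟩, l, ⟨hl, fun hA => Hf f₀ hf₀ ?_⟩, ?_⟩
    · have h1 : g⁻¹ * f * f₀ = l⁻¹ := by
        have : l = f₀⁻¹ * (f⁻¹ * g) := by rw [← e']; group
        rw [this]; group
      have h2 : Nat.pair (c l) (c l⁻¹) = n := hA
      rw [h1, ← h2, Nat.unpair_pair]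
    · show f * f₀ * l = g
      rw [mul_assoc, e']; group
  · rintro L ⟨F₀, hF₀, hL⟩
    obtain ⟨F, hF, HF⟩ := hc n.unpair.1 F₀⁻¹ (by simpa using hF₀)
    refine ⟨F₀ * F⁻¹, Cardinal.mk_mul_le.trans_lt
      (Cardinal.mul_lt_of_lt hinf hF₀ (by simpa using hF)), ?_⟩
    refine Set.eq_univ_of_forall fun g => ?_
    obtain ⟨f, hf, Hf⟩ := HF g
    obtain ⟨l, hl, f₀, hf₀, e⟩ : g * f ∈ L * F₀ := hL ▸ Set.mem_univ _
    have e' : l * f₀ = g * f := e
    refine ⟨l, ⟨hl, fun hA => Hf f₀⁻¹ (by simpa using hf₀) ?_⟩, f₀ * f⁻¹,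
      ⟨f₀, hf₀, f⁻¹, by simpa using hf, rfl⟩, ?_⟩
    · have h1 : g * f * f₀⁻¹ = l := by rw [← e']; group
      have h2 : Nat.pair (c l) (c l⁻¹) = n := hA
      rw [h1, ← h2, Nat.unpair_pair]
    · show l * (f₀ * f⁻¹) = g
      rw [← mul_assoc, e']; group

theorem two_sided (G : Type u) [Group G] (hG : Infinite G) :
    ∃ A : ℕ → Set G,
      (⋃ n, A n) = Set.univ ∧
      Pairwise (fun i j => Disjoint (A i) (A j)) ∧
      ∀ n, ∀ F : Set G, #F < #G → F * A n * F ≠ Set.univ := by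
  obtain ⟨c, hc⟩ := exists_two G hG
  refine ⟨fun n => {x | c x = n}, (partition_of _).1, (partition_of _).2, fun n F hF e => ?_⟩
  obtain ⟨g, hg⟩ := hc n F⁻¹ (by simpa using hF)
  obtain ⟨_, ⟨f, hf, a, ha, rfl⟩, f', hf', e'⟩ : g ∈ F * {x | c x = n} * F := e ▸ Set.mem_univ _
  have e'' : f * a * f' = g := e'
  apply hg f⁻¹ (by simpa using hf) f'⁻¹ (by simpa using hf')
  have : f⁻¹ * g * f'⁻¹ = a := by rw [← e'']; group
  rw [this]
  exact ha

end Pool.Agent.P.MP_08cc25_al.Hedge
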