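import Pool.Agent.P.MP_08cc25_al.Core

/-!
Every infinite group is a countable union of sets that are not left large.
-/

set_option autoImplicit false

namespace Pool.Agent.P.MP_08cc25_al

open Cardinal Ordinal Pointwise

theorem mk_closure_le {G : Type} [Group G] (s : Set G) :
    #(Subgroup.closure s) ≤ max #s ℵ₀ := by
  rcases s.eq_empty_or_nonempty with rfl | hs
  · rw [Subgroup.closure_empty]
    refine le_trans ?_ (le_max_right _ _)
    exact Cardinal.mk_le_aleph0
  · have : Nonempty s := hs.to_subtype
    rw [← Cardinal.mk_freeGroup]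
    have h : (FreeGroup.lift (Subtype.val : s → G)).range = Subgroup.closure s := by
      rw [FreeGroup.range_lift_eq_closure, Subtype.range_coe]
    rw [← h]
    exact Cardinal.mk_range_le

theorem exists_rank (G : Type) [Group G] :
    ∃ R : Rank G, (∀ x, ℵ₀ ≤ #G → R.rk x < (#G).ord) ∧
      ∀ c : Cardinal.{0}, c.IsRegular → ℵ₀ < c → c ≤ #G → R.Good c c.ord := by
  obtain ⟨r, wo, hr⟩ := Cardinal.exists_ord_eq G
  let L : Ordinal.{0} → Subgroup G := fun o => Subgroup.closure {y | typein r y < o}
  have hLmono : ∀ o p, o ≤ p → L o ≤ L p := fun o p h =>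
    Subgroup.closure_mono fun y hy => lt_of_lt_of_le (show typein r y < o from hy) h
  have hmem : ∀ x, x ∈ L (Order.succ (typein r x)) := fun x =>
    Subgroup.subset_closure (Order.lt_succ (typein r x))
  let ρ : G → Ordinal.{0} := fun x => sInf {o | x ∈ L o}
  have hρ : ∀ x o, ρ x ≤ o ↔ x ∈ L o := by
    intro x o
    constructor
    · intro h
      exact hLmono _ _ h (csInf_mem (s := {o | x ∈ L o}) ⟨_, hmem x⟩)
    · intro h
      exact csInf_le' h
  have hL0 : L 0 = ⊥ := by
    simp [L]
  let R : Rank G :=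
    { rk := ρ
      rk_eq_zero := by
        intro x
        rw [← nonpos_iff_eq_zero, hρ, hL0, Subgroup.mem_bot]
      rk_mul := by
        intro x y
        rw [hρ]
        exact mul_mem ((hρ x _).1 (le_max_left _ _)) ((hρ y _).1 (le_max_right _ _))
      rk_inv := by
        intro x
        apply le_antisymm
        · rw [hρ]; exact inv_mem ((hρ x _).1 le_rfl)
        · rw [hρ]; simpa using inv_mem ((hρ x⁻¹ _).1 le_rfl) }
  have hcard : ∀ o, o ≤ type r → #{y | typein r y < o} = o.card := by
    intro o ho
    rcases ho.lt_or_eq with ho | ho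
    · obtain ⟨a, rfl⟩ := typein_surj r ho
      rw [card_typein]
      have : {y | typein r y < typein r a} = {y | r y a} := by
        ext y
        simp [typein_lt_typein]
      rw [this]
      rfl
    · subst ho
      rw [card_type]
      have : {y | typein r y < type r} = Set.univ := by
        ext y; simp [typein_lt_type]
      rw [this, Cardinal.mk_univ]
  refine ⟨R, ?_, ?_⟩
  · intro x hG
    have h1 : ρ x ≤ Order.succ (typein r x) := (hρ _ _).2 (hmem x)
    refine lt_of_le_of_lt h1 ?_
    apply (Cardinal.isSuccLimit_ord hG).succ_lt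
    rw [hr]
    exact typein_lt_type r x
  · intro c hc hc0 hcG F hF hFB p hp
    have hlim := Cardinal.isSuccLimit_ord hc0.le
    have hsup : (⨆ x : F, Order.succ (ρ x)) < c.ord := by
      apply Ordinal.iSup_lt_of_lt_cof (by rwa [hc.cof_ord])
      rintro ⟨x, hx⟩
      apply hlim.succ_lt
      rcases hFB hx with h | h
      · have h2 : ρ x = 0 := (R.rk_eq_zero x).2 h
        show ρ x < c.ord
        rw [h2]; exact hc.ord_pos
      · exact h
    set d := max p (⨆ x : F, Order.succ (ρ x)) with hd
    have hdlt : d < c.ord := max_lt hp hsup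
    have hco : c.ord ≤ type r := by rw [← hr]; exact Cardinal.ord_le_ord.2 hcG
    refine ⟨d, le_max_left _ _, ?_, ?_⟩
    · intro x hx
      right
      refine lt_of_lt_of_le (Order.lt_succ (ρ x)) (le_trans ?_ (le_max_right _ _))
      exact Ordinal.le_iSup (fun x : F => Order.succ (ρ x)) ⟨x, hx⟩
    · have h1 : #(L d) < c := by
        refine lt_of_le_of_lt (mk_closure_le _) (max_lt ?_ hc0)
        rw [hcard d (hdlt.le.trans hco)]
        exact Cardinal.lt_ord.1 hdlt
      have h2 : #{y | typein r y < c.ord} = c := by rw [hcard _ hco, Cardinal.card_ord]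
      have h3 : ¬ ({y | typein r y < c.ord} ⊆ (L d : Set G)) := by
        intro h
        have := Cardinal.mk_le_mk_of_subset h
        rw [h2] at this
        exact absurd h1 (not_lt.2 this)
      obtain ⟨y, hy1, hy2⟩ := Set.not_subset.1 h3
      refine ⟨y, Or.inr ?_, ?_⟩
      · exact lt_of_le_of_lt ((hρ _ _).2 (hmem y)) (hlim.succ_lt hy1)
      · rintro (h | h)
        · exact hy2 (h ▸ one_mem _)
        · exact hy2 ((hρ _ _).1 (le_of_lt h))

theorem of_coloring {G : Type} [Group G] (c : G → ℕ)
    (h : ∀ n, ∀ F : Set G, #F < #G → ∃ g, ∀ f ∈ F, c (f⁻¹ * g) ≠ n) :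
    ∃ A : ℕ → Set G,
        (⋃ n, A n) = Set.univ ∧
        Pairwise (fun i j => Disjoint (A i) (A j)) ∧
        ∀ n, ¬ ∃ F : Set G, Cardinal.mk F < Cardinal.mk G ∧ F * A n = Set.univ := by
  refine ⟨fun n => {x | c x = n}, ?_, ?_, ?_⟩
  · ext x; simp
  · intro i j hij
    rw [Set.disjoint_left]
    intro x h1 h2
    exact hij (h1.symm.trans h2)
  · rintro n ⟨F, hF, hFA⟩
    obtain ⟨g, hg⟩ := h n F hF
    have : g ∈ F * {x | c x = n} := hFA ▸ Set.mem_univ g
    obtain ⟨f, hf, a, ha, rfl⟩ := this
    apply hg f hf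
    simpa using ha

theorem main (G : Type) [Group G] (hG : Infinite G) :
    ∃ A : ℕ → Set G,
        (⋃ n, A n) = Set.univ ∧
        Pairwise (fun i j => Disjoint (A i) (A j)) ∧
        ∀ n, ¬ ∃ F : Set G, Cardinal.mk F < Cardinal.mk G ∧ F * A n = Set.univ := by
  have hinf : ℵ₀ ≤ #G := Cardinal.aleph0_le_mk G
  rcases hinf.eq_or_lt with h0 | h0
  · have : Countable G := Cardinal.mk_le_aleph0_iff.1 h0.ge
    obtain ⟨c, hc⟩ := Countable.exists_injective_nat G
    apply of_coloring c
    intro n F hF
    have hfin : F.Finite := Cardinal.lt_aleph0_iff_set_finite.1 (h0 ▸ hF)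
    have hfin2 : (F * {x | c x = n}).Finite := by
      apply hfin.mul
      apply Set.Subsingleton.finite
      intro x hx y hy
      exact hc (hx.trans hy.symm)
    obtain ⟨g, hg⟩ := hfin2.exists_notMem
    refine ⟨g, fun f hf h => hg ⟨f, hf, f⁻¹ * g, h, by simp⟩⟩
  · obtain ⟨R, hR1, hR2⟩ := exists_rank G
    rcases Cardinal.isRegular_or_isSingular hinf with hreg | hsing
    · apply of_coloring (fun x => (R.cs 0 x⁻¹).1)
      intro n F hF
      have hall : ∀ x, x ∈ R.B (#G).ord := fun x => Or.inr (hR1 x hinf)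
      have hgood := hR2 _ hreg h0 le_rfl
      obtain ⟨d, -, hd, v, -, hv⟩ := hgood F hF (fun x _ => hall x) 0 hreg.ord_pos
      have hdlt : d < (#G).ord := by
        by_contra hcon
        exact hv (R.B_mono (not_lt.1 hcon) (hall v))
      obtain ⟨u, hu⟩ := R.long_left (lt_trans Cardinal.one_lt_aleph0 h0) hall hgood hdlt (n + 1)
      refine ⟨u⁻¹, fun f hf => ?_⟩
      have := hu f (hd hf)
      simp only [mul_inv_rev, inv_inv]
      omega
    · apply of_coloring (fun x => (R.cs 0 x).1)
      intro n F hF
      let θ : ℕ → Cardinal.{0} := fun k => Order.succ^[k + 1] (max #F ℵ₀)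
      have hθs : ∀ k, θ (k + 1) = Order.succ (θ k) := fun k => Function.iterate_succ_apply' _ _ _
      have hθ0 : θ 0 = Order.succ (max #F ℵ₀) := rfl
      have hmono : StrictMono θ := strictMono_nat_of_lt_succ fun k => by
        rw [hθs]; exact Order.lt_succ _
      have hbig : ∀ k, max #F ℵ₀ < θ k := fun k =>
        lt_of_lt_of_le (by rw [hθ0]; exact Order.lt_succ _) (hmono.monotone (Nat.zero_le k))
      have hreg : ∀ k, (θ k).IsRegular := by
        intro k
        cases k with
        | zero => rw [hθ0]; exact Cardinal.isRegular_succ (le_max_right _ _)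
        | succ k =>
          rw [hθs]
          exact Cardinal.isRegular_succ ((le_max_right _ _).trans (hbig k).le)
      have hlt : ∀ k, θ k < #G := by
        intro k
        induction k with
        | zero => rw [hθ0]; exact hsing.isSuccLimit.succ_lt (max_lt hF h0)
        | succ k ih => rw [hθs]; exact hsing.isSuccLimit.succ_lt ih
      have hgood : ∀ k, R.Good (θ 0) (θ k).ord := by
        intro k F' hF'
        exact hR2 _ (hreg k) ((le_max_right _ _).trans_lt (hbig k)) (hlt k).le F'
          (lt_of_lt_of_le hF' (hmono.monotone (Nat.zero_le k)))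
      obtain ⟨g, -, hg⟩ := R.long_right (fun k => (θ k).ord)
        (fun a b hab => Cardinal.ord_lt_ord.2 (hmono hab)) hgood (n + 1) ((fun f => f⁻¹) '' F)
        (lt_of_le_of_lt Cardinal.mk_image_le ((le_max_left _ _).trans_lt (hbig 0)))
      refine ⟨g, fun f hf => ?_⟩
      have := hg f⁻¹ ⟨f, hf, rfl⟩
      omega

end Pool.Agent.P.MP_08cc25_al
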